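import Mathlib

/-!
# Infinite rational non-planar subsets of spheres

Complete answer to the second question: a sphere of radius `ρ > 0` in `ℝ^d` contains an infinite
rational set which is not contained in any hyperplane if and only if `d ≥ 2` and `ρ ^ 2` is
rational.
-/

set_option autoImplicit false

open Module

namespace Pool.Agent.Results.MP_209919_co.InfiniteNonplanar

/-- All distances between two different points of `X` are rational. -/
def IsRationalSet {d : ℕ} (X : Set (EuclideanSpace ℝ (Fin d))) : Prop :=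
  ∀ x ∈ X, ∀ y ∈ X, x ≠ y → ∃ q : ℚ, dist x y = (q : ℝ)

/-- `X` is not contained in any hyperplane, that is, in any affine subspace of dimension `d - 1`. -/
def NotInHyperplane {d : ℕ} (X : Set (EuclideanSpace ℝ (Fin d))) : Prop :=
  ∀ H : AffineSubspace ℝ (EuclideanSpace ℝ (Fin d)), finrank ℝ H.direction + 1 = d →
    ¬ X ⊆ (H : Set (EuclideanSpace ℝ (Fin d)))

/-! ### Hyperplanes and linear functionals -/

/-- no nonzero linear functional is constant on `X` -/
def Spread {d : ℕ} (X : Set (EuclideanSpace ℝ (Fin d))) : Prop :=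
  ∀ a : EuclideanSpace ℝ (Fin d), a ≠ 0 → ∀ b : ℝ, ∃ x ∈ X, inner ℝ a x ≠ b

lemma notInHyperplane_of_spread {d : ℕ} {X : Set (EuclideanSpace ℝ (Fin d))} (hX : X.Nonempty)
    (h : Spread X) : NotInHyperplane X := by
  intro H hH hXH
  obtain ⟨x0, hx0⟩ := hX
  have hfin : finrank ℝ H.directionᗮ = 1 := by
    have := Submodule.finrank_add_finrank_orthogonal H.direction
    rw [finrank_euclideanSpace_fin] at this
    omega
  have hne : H.directionᗮ ≠ ⊥ := by
    intro h0
    rw [h0] at hfin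
    simp at hfin
  obtain ⟨a, ha, ha0⟩ := Submodule.exists_mem_ne_zero_of_ne_bot hne
  obtain ⟨x, hx, hxa⟩ := h a ha0 (inner ℝ a x0)
  apply hxa
  have hdir : x -ᵥ x0 ∈ H.direction := AffineSubspace.vsub_mem_direction (hXH hx) (hXH hx0)
  have h1 : inner ℝ a (x -ᵥ x0) = 0 := (Submodule.mem_orthogonal' _ _).1 ha _ hdir
  rw [vsub_eq_sub, inner_sub_right] at h1
  linarith

lemma spread_of_notInHyperplane {d : ℕ} {X : Set (EuclideanSpace ℝ (Fin d))} (hX : X.Nonempty)
    (h : NotInHyperplane X) : Spread X := by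
  intro a ha b
  by_contra hcon
  push Not at hcon
  obtain ⟨x0, hx0⟩ := hX
  have hfin : finrank ℝ (ℝ ∙ a)ᗮ + 1 = d := by
    have := Submodule.finrank_add_finrank_orthogonal (ℝ ∙ a)
    rw [finrank_euclideanSpace_fin, finrank_span_singleton ha] at this
    omega
  apply h (AffineSubspace.mk' x0 (ℝ ∙ a)ᗮ)
  · rw [AffineSubspace.direction_mk']
    exact hfin
  · intro x hx
    rw [SetLike.mem_coe, AffineSubspace.mem_mk', vsub_eq_sub,
      Submodule.mem_orthogonal_singleton_iff_inner_right, inner_sub_right, hcon x hx, hcon x0 hx0,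
      sub_self]

/-! ### The radius -/

lemma sq_radius_rational {d : ℕ} {X : Set (EuclideanSpace ℝ (Fin d))}
    {c : EuclideanSpace ℝ (Fin d)} {ρ : ℝ} (hXs : X ⊆ Metric.sphere c ρ)
    (hXn : X.Nonempty) (hr : IsRationalSet X) (hsp : Spread X) : ∃ q : ℚ, ρ ^ 2 = (q : ℝ) := by
  obtain ⟨x0, hx0⟩ := hXn
  have hdist : ∀ x ∈ X, ∀ y ∈ X, ∃ q : ℚ, dist x y = (q : ℝ) := by
    intro x hx y hy
    rcases eq_or_ne x y with h | h
    · exact ⟨0, by simp [h]⟩
    · exact hr x hx y hy h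
  set W : Set (EuclideanSpace ℝ (Fin d)) := (fun x => x - x0) '' X with hW
  set u := c - x0 with hu
  have hu2 : ‖u‖ = ρ := by
    have := hXs hx0
    rw [Metric.mem_sphere, dist_comm, dist_eq_norm] at this
    exact this
  -- inner products
  have hin : ∀ v ∈ W, ∀ w ∈ W, ∃ q : ℚ, inner ℝ v w = (q : ℝ) := by
    rintro _ ⟨x, hx, rfl⟩ _ ⟨y, hy, rfl⟩
    obtain ⟨q1, h1⟩ := hdist x hx x0 hx0
    obtain ⟨q2, h2⟩ := hdist y hy x0 hx0
    obtain ⟨q3, h3⟩ := hdist x hx y hy
    refine ⟨(q1 ^ 2 + q2 ^ 2 - q3 ^ 2) / 2, ?_⟩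
    have h := norm_sub_sq_real (x - x0) (y - x0)
    rw [sub_sub_sub_cancel_right, ← dist_eq_norm, ← dist_eq_norm, ← dist_eq_norm, h1, h2, h3] at h
    push_cast
    linarith
  have hiu : ∀ v ∈ W, inner ℝ v u = inner ℝ v v / 2 := by
    rintro _ ⟨x, hx, rfl⟩
    have h := norm_sub_sq_real (x - x0) u
    have h4 : ‖x - x0 - u‖ = ρ := by
      have := hXs hx
      rw [Metric.mem_sphere, dist_eq_norm] at this
      rw [hu, sub_sub_sub_cancel_right]
      exact this
    rw [h4, hu2] at h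
    rw [real_inner_self_eq_norm_sq]
    linarith
  -- W spans
  have hspan : Submodule.span ℝ W = ⊤ := by
    by_contra hne
    have hne2 : (Submodule.span ℝ W)ᗮ ≠ ⊥ := by
      intro h0
      exact hne ((Submodule.orthogonal_eq_bot_iff).1 h0)
    obtain ⟨a, ha, ha0⟩ := Submodule.exists_mem_ne_zero_of_ne_bot hne2
    obtain ⟨x, hx, hxa⟩ := hsp a ha0 (inner ℝ a x0)
    apply hxa
    have h1 : inner ℝ a (x - x0) = 0 :=
      (Submodule.mem_orthogonal' _ _).1 ha _ (Submodule.subset_span ⟨x, hx, rfl⟩)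
    rw [inner_sub_right] at h1
    linarith
  obtain ⟨b, hbW, hbspan, hbli⟩ := exists_linearIndependent ℝ W
  have hbfin : b.Finite := hbli.setFinite
  have : Fintype b := hbfin.fintype
  choose! g hg using hin
  -- Gram matrix
  let G : Matrix b b ℚ := fun i j => g i j
  have hG : ∀ i j : b, ((G i j : ℚ) : ℝ) = inner ℝ (i : EuclideanSpace ℝ (Fin d)) (j : EuclideanSpace ℝ (Fin d)) :=
    fun i j => (hg i (hbW i.2) j (hbW j.2)).symm
  have hinj : Function.Injective G.mulVecLin := by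
    rw [← LinearMap.ker_eq_bot, LinearMap.ker_eq_bot']
    intro z hz
    have h1 : ∀ i : b, inner ℝ (i : EuclideanSpace ℝ (Fin d)) (∑ j : b, (z j : ℝ) • (j : EuclideanSpace ℝ (Fin d))) = 0 := by
      intro i
      have h2 : (G.mulVecLin z) i = 0 := by rw [hz]; rfl
      rw [Matrix.mulVecLin_apply, Matrix.mulVec, dotProduct] at h2
      rw [inner_sum]
      have h3 : ((∑ j : b, G i j * z j : ℚ) : ℝ) = 0 := by rw [h2]; norm_num
      push_cast at h3
      rw [← h3]
      refine Finset.sum_congr rfl fun j _ => ?_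
      rw [inner_smul_right, ← hG]
      ring
    have h4 : (∑ j : b, (z j : ℝ) • (j : EuclideanSpace ℝ (Fin d))) = 0 := by
      rw [← inner_self_eq_zero (𝕜 := ℝ)]
      conv_lhs => rw [sum_inner]
      refine Finset.sum_eq_zero fun i _ => ?_
      rw [inner_smul_left, h1 i, mul_zero]
    have h5 := Fintype.linearIndependent_iff.1 hbli (fun j => (z j : ℝ)) h4
    funext i
    exact_mod_cast h5 i
  have hsurj : Function.Surjective G.mulVecLin := LinearMap.injective_iff_surjective.1 hinj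
  obtain ⟨z, hz⟩ := hsurj (fun i => g i i / 2)
  have hz' : ∀ i : b, inner ℝ (i : EuclideanSpace ℝ (Fin d)) (∑ j : b, (z j : ℝ) • (j : EuclideanSpace ℝ (Fin d))) = inner ℝ (i : EuclideanSpace ℝ (Fin d)) u := by
    intro i
    have h2 : (G.mulVecLin z) i = g i i / 2 := by rw [hz]
    rw [Matrix.mulVecLin_apply, Matrix.mulVec, dotProduct] at h2
    rw [inner_sum, hiu i (hbW i.2), hg i (hbW i.2) i (hbW i.2)]
    have h3 : ((∑ j : b, G i j * z j : ℚ) : ℝ) = ((g i i / 2 : ℚ) : ℝ) := by rw [h2]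
    push_cast at h3
    rw [← h3]
    refine Finset.sum_congr rfl fun j _ => ?_
    rw [inner_smul_right, ← hG]
    ring
  have hueq : (∑ j : b, (z j : ℝ) • (j : EuclideanSpace ℝ (Fin d))) = u := by
    have h6 : ∀ w ∈ Submodule.span ℝ b, inner ℝ w ((∑ j : b, (z j : ℝ) • (j : EuclideanSpace ℝ (Fin d))) - u) = 0 := by
      intro w hw
      induction hw using Submodule.span_induction with
      | mem x hx =>
        rw [inner_sub_right, hz' ⟨x, hx⟩, sub_self]
      | zero => simp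
      | add x y _ _ hx hy => rw [inner_add_left, hx, hy, add_zero]
      | smul r x _ hx => rw [inner_smul_left, hx, mul_zero]
    rw [hbspan, hspan] at h6
    have := h6 _ (Submodule.mem_top (x := (∑ j : b, (z j : ℝ) • (j : EuclideanSpace ℝ (Fin d))) - u))
    rw [inner_self_eq_zero] at this
    exact sub_eq_zero.1 this
  refine ⟨∑ j : b, z j * (g j j / 2), ?_⟩
  rw [← hu2, ← real_inner_self_eq_norm_sq]
  conv_lhs => rw [← hueq, sum_inner]
  push_cast
  refine Finset.sum_congr rfl fun j _ => ?_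
  rw [inner_smul_left, hueq, hiu j (hbW j.2), hg j (hbW j.2) j (hbW j.2)]
  simp

/-! ### Existence -/

/-- the rational parametrisation of the conic `q c ^ 2 + w ^ 2 = q` -/
def cc (q t : ℚ) : ℚ := (t ^ 2 - q) / (t ^ 2 + q)

/-- the rational parametrisation of the conic `q c ^ 2 + w ^ 2 = q` -/
def ww (q t : ℚ) : ℚ := 2 * q * t / (t ^ 2 + q)

lemma conic {q t : ℚ} (hq : 0 < q) : q * cc q t ^ 2 + ww q t ^ 2 = q := by
  have h : t ^ 2 + q ≠ 0 := by positivity
  unfold cc ww
  field_simp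
  ring

lemma cc_lt {q s t : ℚ} (hq : 0 < q) (hs : 0 ≤ s) (hst : s < t) : cc q s < cc q t := by
  unfold cc
  have h1 : 0 < s ^ 2 + q := by positivity
  have h2 : 0 < t ^ 2 + q := by positivity
  have h3 : s ^ 2 < t ^ 2 := by nlinarith
  rw [div_lt_div_iff₀ h1 h2]
  nlinarith

lemma cc_pos {q t : ℚ} (hq : 0 < q) (ht : q < t ^ 2) : 0 < cc q t := by
  unfold cc
  have h2 : 0 < t ^ 2 + q := by positivity
  exact div_pos (by linarith) h2

/-- points of the circle of radius `√q` with pairwise rational distances -/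
noncomputable def PP (q t : ℚ) : EuclideanSpace ℝ (Fin 2) :=
  !₂[Real.sqrt q * (2 * (cc q t : ℝ) ^ 2 - 1), 2 * (ww q t : ℝ) * (cc q t : ℝ)]

lemma PP_dist {q : ℚ} (hq : 0 < q) (s t : ℚ) :
    dist (PP q s) (PP q t) = ((2 * |ww q s * cc q t - ww q t * cc q s| : ℚ) : ℝ) := by
  have hqr : (0 : ℝ) < q := by exact_mod_cast hq
  have h1 : (q : ℝ) * (cc q s : ℝ) ^ 2 + (ww q s : ℝ) ^ 2 = q := by exact_mod_cast conic (t := s) hq
  have h2 : (q : ℝ) * (cc q t : ℝ) ^ 2 + (ww q t : ℝ) ^ 2 = q := by exact_mod_cast conic (t := t) hq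
  have hs : Real.sqrt q ^ 2 = (q : ℝ) := Real.sq_sqrt hqr.le
  rw [EuclideanSpace.dist_eq]
  rw [Real.sqrt_eq_iff_mul_self_eq (by positivity) (by positivity)]
  simp only [Fin.sum_univ_two, PP, Real.dist_eq, sq_abs]
  push_cast
  rw [show (2 * |(ww q s : ℝ) * cc q t - ww q t * cc q s|) * (2 * |(ww q s : ℝ) * cc q t - ww q t * cc q s|) = 4 * (|(ww q s : ℝ) * cc q t - ww q t * cc q s|) ^ 2 by ring, sq_abs]
  set a := (cc q s : ℝ)
  set b := (cc q t : ℝ)
  set v := (ww q s : ℝ)
  set w := (ww q t : ℝ)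
  set r := Real.sqrt q
  have hv : v ^ 2 = q * (1 - a ^ 2) := by linarith
  have hw : w ^ 2 = q * (1 - b ^ 2) := by linarith
  have e1 : (r * (2 * a ^ 2 - 1) - r * (2 * b ^ 2 - 1)) ^ 2 = 4 * r ^ 2 * (a ^ 2 - b ^ 2) ^ 2 := by ring
  have e2 : (2 * v * a - 2 * w * b) ^ 2 = 4 * (v ^ 2 * a ^ 2 + w ^ 2 * b ^ 2 - 2 * (v * w * a * b)) := by ring
  have e3 : 4 * (v * b - w * a) ^ 2 = 4 * (v ^ 2 * b ^ 2 + w ^ 2 * a ^ 2 - 2 * (v * w * a * b)) := by ring
  rw [e1, e2, e3, hs, hv, hw]
  ring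

lemma PP_norm {q : ℚ} (hq : 0 < q) (t : ℚ) : ‖PP q t‖ ^ 2 = q := by
  have hqr : (0 : ℝ) < q := by exact_mod_cast hq
  have h2 : (q : ℝ) * (cc q t : ℝ) ^ 2 + (ww q t : ℝ) ^ 2 = q := by exact_mod_cast conic (t := t) hq
  have hs : Real.sqrt q ^ 2 = (q : ℝ) := Real.sq_sqrt hqr.le
  rw [EuclideanSpace.norm_sq_eq]
  simp only [Fin.sum_univ_two, PP, Real.norm_eq_abs, sq_abs]
  simp only [Matrix.cons_val_zero, Matrix.cons_val_one]
  set b := (cc q t : ℝ)
  set w := (ww q t : ℝ)
  set r := Real.sqrt q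
  have hw : w ^ 2 = q * (1 - b ^ 2) := by linarith
  have e1 : (r * (2 * b ^ 2 - 1)) ^ 2 = r ^ 2 * (2 * b ^ 2 - 1) ^ 2 := by ring
  have e2 : (2 * w * b) ^ 2 = 4 * w ^ 2 * b ^ 2 := by ring
  rw [e1, e2, hs, hw]
  ring

/-- Existence for `d = 2`. -/
lemma exists_two (q : ℚ) (hq : 0 < q) : ∃ X : Set (EuclideanSpace ℝ (Fin 2)), X.Infinite ∧
    (∀ x ∈ X, ‖x‖ ^ 2 = q) ∧ (∀ x ∈ X, ∀ y ∈ X, ∃ r : ℚ, dist x y = (r : ℝ)) ∧ Spread X := by
  obtain ⟨N, hN⟩ := exists_nat_gt (q + 1)
  have hqr : (0 : ℝ) < q := by exact_mod_cast hq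
  have hN1 : (1 : ℚ) < N := by linarith
  have hNq : q < (N : ℚ) ^ 2 := by nlinarith
  let P : ℕ → EuclideanSpace ℝ (Fin 2) := fun n => PP q (n + N)
  have hcpos : ∀ n : ℕ, 0 < cc q (n + N) := fun n => cc_pos hq (by
    have : (0 : ℚ) ≤ n := Nat.cast_nonneg n
    nlinarith)
  have hlt : ∀ m n : ℕ, m < n → (P m) 0 < (P n) 0 := by
    intro m n hmn
    have h1 : cc q (m + N) < cc q (n + N) := cc_lt hq (by positivity) (by
      have : (m : ℚ) < n := by exact_mod_cast hmn
      linarith)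
    have h2 := hcpos m
    have h3 : cc q (m + N) ^ 2 < cc q (n + N) ^ 2 := by nlinarith
    have h4 : ((cc q (m + N) : ℚ) : ℝ) ^ 2 < ((cc q (n + N) : ℚ) : ℝ) ^ 2 := by exact_mod_cast h3
    have h5 : 0 < Real.sqrt q := Real.sqrt_pos.2 hqr
    change Real.sqrt q * (2 * (cc q (m + N) : ℝ) ^ 2 - 1) < Real.sqrt q * (2 * (cc q (n + N) : ℝ) ^ 2 - 1)
    apply mul_lt_mul_of_pos_left _ h5
    linarith
  have hinj : Function.Injective P := by
    intro m n hmn
    rcases lt_trichotomy m n with h | h | h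
    · exact absurd (by rw [hmn]) (hlt m n h).ne
    · exact h
    · exact absurd (by rw [hmn]) (hlt n m h).ne
  refine ⟨Set.range P, Set.infinite_range_of_injective hinj, ?_, ?_, ?_⟩
  · rintro _ ⟨n, rfl⟩
    exact PP_norm hq _
  · rintro _ ⟨m, rfl⟩ _ ⟨n, rfl⟩
    exact ⟨_, PP_dist hq _ _⟩
  · intro a ha b
    by_contra hcon
    push Not at hcon
    have h : ∀ n : ℕ, a 0 * (P n) 0 + a 1 * (P n) 1 = b := by
      intro n
      have := hcon (P n) ⟨n, rfl⟩
      rw [PiLp.inner_apply, Fin.sum_univ_two] at this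
      simp only [RCLike.inner_apply, conj_trivial] at this
      linarith
    have hn : ∀ n : ℕ, (P n) 0 ^ 2 + (P n) 1 ^ 2 = q := by
      intro n
      have := PP_norm hq (n + N)
      rw [EuclideanSpace.norm_sq_eq, Fin.sum_univ_two] at this
      simp only [Real.norm_eq_abs, sq_abs] at this
      exact this
    have hA : 0 < a 0 ^ 2 + a 1 ^ 2 := by
      by_contra hle
      push Not at hle
      have h0 : a 0 = 0 := by nlinarith [sq_nonneg (a 0), sq_nonneg (a 1)]
      have h1 : a 1 = 0 := by nlinarith [sq_nonneg (a 0), sq_nonneg (a 1)]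
      apply ha
      ext i
      fin_cases i
      · exact h0
      · exact h1
    -- the coordinate along the line
    have hs : ∀ n : ℕ, (a 0 * (P n) 1 - a 1 * (P n) 0) ^ 2 = (a 0 ^ 2 + a 1 ^ 2) * q - b ^ 2 := by
      intro n
      rw [← hn n, ← h n]
      ring
    have hx : ∀ n : ℕ, (a 0 ^ 2 + a 1 ^ 2) * (P n) 0 = a 0 * b - a 1 * (a 0 * (P n) 1 - a 1 * (P n) 0) := by
      intro n
      rw [← h n]
      ring
    have key : ∀ m n : ℕ, m < n → a 0 * (P m) 1 - a 1 * (P m) 0 = - (a 0 * (P n) 1 - a 1 * (P n) 0) := by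
      intro m n hmn
      have h1 : (a 0 * (P m) 1 - a 1 * (P m) 0) ^ 2 = (a 0 * (P n) 1 - a 1 * (P n) 0) ^ 2 := by
        rw [hs, hs]
      rcases sq_eq_sq_iff_eq_or_eq_neg.1 h1 with h2 | h2
      · exfalso
        have h3 := hx m
        have h4 := hx n
        rw [h2, ← h4] at h3
        have h5 := mul_left_cancel₀ hA.ne' h3
        exact (hlt m n hmn).ne h5
      · exact h2
    have k1 := key 0 1 (by norm_num)
    have k2 := key 1 2 (by norm_num)
    have k3 := key 0 2 (by norm_num)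
    have h0 : a 0 * (P 0) 1 - a 1 * (P 0) 0 = 0 := by linarith
    have h1 : a 0 * (P 1) 1 - a 1 * (P 1) 0 = 0 := by linarith
    have h3 := hx 0
    have h4 := hx 1
    rw [h0] at h3
    rw [h1, ← h3] at h4
    have h5 := mul_left_cancel₀ hA.ne' h4
    exact (hlt 0 1 (by norm_num)).ne h5.symm

/-- the point `(h, x)` -/
noncomputable def EE {d : ℕ} (h : ℝ) (x : EuclideanSpace ℝ (Fin d)) : EuclideanSpace ℝ (Fin (d + 1)) :=
  WithLp.toLp 2 (Fin.cons h (fun i => x i))

lemma EE_norm {d : ℕ} (h : ℝ) (x : EuclideanSpace ℝ (Fin d)) : ‖EE h x‖ ^ 2 = h ^ 2 + ‖x‖ ^ 2 := by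
  rw [EuclideanSpace.norm_sq_eq, EuclideanSpace.norm_sq_eq, Fin.sum_univ_succ]
  simp [EE]

lemma EE_sub {d : ℕ} (h k : ℝ) (x y : EuclideanSpace ℝ (Fin d)) :
    EE h x - EE k y = EE (h - k) (x - y) := by
  ext i
  refine Fin.cases ?_ (fun j => ?_) i
  · simp [EE]
  · simp [EE]

lemma EE_dist {d : ℕ} (h k : ℝ) (x y : EuclideanSpace ℝ (Fin d)) :
    dist (EE h x) (EE k y) ^ 2 = (h - k) ^ 2 + dist x y ^ 2 := by
  rw [dist_eq_norm, EE_sub, EE_norm, dist_eq_norm]

lemma EE_inner {d : ℕ} (h : ℝ) (x : EuclideanSpace ℝ (Fin d)) (a : EuclideanSpace ℝ (Fin (d + 1))) :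
    inner ℝ a (EE h x) = a 0 * h + inner ℝ (WithLp.toLp 2 (fun i => a (Fin.succ i)) : EuclideanSpace ℝ (Fin d)) x := by
  rw [PiLp.inner_apply, PiLp.inner_apply, Fin.sum_univ_succ]
  simp [EE, mul_comm]

/-- Existence in all dimensions `d ≥ 2`. -/
lemma exists_all (d : ℕ) (hd : 2 ≤ d) : ∀ q : ℚ, 0 < q →
    ∃ X : Set (EuclideanSpace ℝ (Fin d)), X.Infinite ∧
    (∀ x ∈ X, ‖x‖ ^ 2 = q) ∧ (∀ x ∈ X, ∀ y ∈ X, ∃ r : ℚ, dist x y = (r : ℝ)) ∧ Spread X := by
  induction d, hd using Nat.le_induction with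
  | base => exact exists_two
  | succ d hd ih =>
    intro q hq
    obtain ⟨N, hN⟩ := exists_nat_gt (1 / q + 1)
    have hN0 : (0 : ℚ) < N := lt_trans (by positivity) hN
    -- a small positive rational number
    set m : ℚ := 1 / N with hm
    have hm0 : 0 < m := by positivity
    have hmq : m ^ 2 < q := by
      have h1 : 1 < N * q := by
        have : 1 / q < N := by linarith
        rwa [div_lt_iff₀ hq] at this
      have h2 : (1 : ℚ) < N := by
        have : 0 < 1 / q := by positivity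
        linarith
      rw [hm, div_pow, one_pow, div_lt_iff₀ (by positivity)]
      nlinarith
    have hq' : 0 < m ^ 2 - m ^ 4 / (4 * q) := by
      have : m ^ 4 / (4 * q) < m ^ 2 := by
        rw [div_lt_iff₀ (by positivity)]
        nlinarith [sq_nonneg m, pow_pos hm0 2]
      linarith
    obtain ⟨X, hXi, hXn, hXr, hXs⟩ := ih (m ^ 2 - m ^ 4 / (4 * q)) hq'
    have hqr : (0 : ℝ) < q := by exact_mod_cast hq
    have hmr : (0 : ℝ) < m := by exact_mod_cast hm0
    set ρ := Real.sqrt q with hρ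
    have hρ0 : 0 < ρ := Real.sqrt_pos.2 hqr
    have hρ2 : ρ ^ 2 = q := Real.sq_sqrt hqr.le
    set h : ℝ := ρ - (m : ℝ) ^ 2 / (2 * ρ) with hh
    have e1 : h ^ 2 + (((m ^ 2 - m ^ 4 / (4 * q) : ℚ)) : ℝ) = q := by
      push_cast
      rw [hh, ← hρ2]
      field_simp
      ring
    have e2 : (h - ρ) ^ 2 + (((m ^ 2 - m ^ 4 / (4 * q) : ℚ)) : ℝ) = (m : ℝ) ^ 2 := by
      push_cast
      rw [hh, ← hρ2]
      field_simp
      ring
    have hXne : X.Nonempty := hXi.nonempty
    have hpole : ∀ x ∈ X, dist (EE h x) (EE ρ 0) = m := by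
      intro x hx
      have h1 : dist (EE h x) (EE ρ 0) ^ 2 = (m : ℝ) ^ 2 := by
        rw [EE_dist, dist_zero_right, hXn x hx, e2]
      exact (pow_left_inj₀ dist_nonneg hmr.le two_ne_zero).1 h1
    refine ⟨insert (EE ρ 0) (EE h '' X), ?_, ?_, ?_, ?_⟩
    · refine Set.Infinite.mono (Set.subset_insert _ _) (Set.Infinite.image ?_ hXi)
      intro x _ y _ hxy
      have h1 := EE_dist h h x y
      rw [hxy, dist_self, sub_self] at h1
      have h2 : dist x y ^ 2 = 0 := by linarith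
      exact dist_eq_zero.1 (by simpa using h2)
    · rintro x (rfl | ⟨y, hy, rfl⟩)
      · rw [EE_norm, hρ2]; simp
      · rw [EE_norm, hXn y hy, e1]
    · rintro x (rfl | ⟨x, hx, rfl⟩) y (rfl | ⟨y, hy, rfl⟩)
      · exact ⟨0, by simp⟩
      · exact ⟨m, by rw [dist_comm]; exact hpole y hy⟩
      · exact ⟨m, hpole x hx⟩
      · obtain ⟨r, hr⟩ := hXr x hx y hy
        refine ⟨r, ?_⟩
        rw [← hr]
        have h1 := EE_dist h h x y
        rw [sub_self] at h1
        exact (pow_left_inj₀ dist_nonneg dist_nonneg two_ne_zero).1 (by linarith)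
    · intro a ha b
      by_contra hcon
      push Not at hcon
      set a' : EuclideanSpace ℝ (Fin d) := WithLp.toLp 2 (fun i => a (Fin.succ i)) with ha'
      have h1 : ∀ x ∈ X, a 0 * h + inner ℝ a' x = b := by
        intro x hx
        rw [← hcon _ (Set.mem_insert_of_mem _ ⟨x, hx, rfl⟩), EE_inner]
      have h2 : a 0 * ρ = b := by
        have := hcon _ (Set.mem_insert _ _)
        rw [EE_inner, inner_zero_right, add_zero] at this
        exact this
      have ha0 : a' = 0 := by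
        by_contra hne
        obtain ⟨x, hx, hxb⟩ := hXs a' hne (b - a 0 * h)
        apply hxb
        have := h1 x hx
        linarith
      have ha1 : a 0 = 0 := by
        obtain ⟨x, hx⟩ := hXne
        have h3 := h1 x hx
        rw [ha0, inner_zero_left, add_zero, ← h2] at h3
        have h4 : a 0 * (ρ - h) = 0 := by linarith
        rcases mul_eq_zero.1 h4 with h5 | h5
        · exact h5
        · exfalso
          rw [hh] at h5
          have h6 : 0 < (m : ℝ) ^ 2 / (2 * ρ) := by positivity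
          linarith
      apply ha
      ext i
      refine Fin.cases ?_ (fun j => ?_) i
      · exact ha1
      · have : a' j = 0 := by rw [ha0]; rfl
        exact this

/-- **Complete answer to the second question.** For every `d`, every `ρ > 0` and every sphere of
radius `ρ` in `ℝ^d` (with centre `c`): the sphere contains an infinite rational set that is not
contained in any hyperplane if and only if `d ≥ 2` and `ρ ^ 2` is rational. -/
theorem result (d : ℕ) (ρ : ℝ) (hρ : 0 < ρ) (c : EuclideanSpace ℝ (Fin d)) :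
    (∃ X : Set (EuclideanSpace ℝ (Fin d)), X ⊆ Metric.sphere c ρ ∧ X.Infinite ∧
      IsRationalSet X ∧ NotInHyperplane X) ↔ 2 ≤ d ∧ ∃ q : ℚ, ρ ^ 2 = (q : ℝ) := by
  constructor
  · rintro ⟨X, hXs, hXi, hXr, hXh⟩
    refine ⟨?_, sq_radius_rational hXs hXi.nonempty hXr (spread_of_notInHyperplane hXi.nonempty hXh)⟩
    by_contra hd
    push Not at hd
    apply hXi
    interval_cases d
    · exact Set.toFinite X
    · -- at most two points
      refine Set.Finite.subset (s := {EuclideanSpace.single 0 (c 0 + ρ), EuclideanSpace.single 0 (c 0 - ρ)}) (Set.toFinite _) ?_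
      intro x hx
      have h1 := hXs hx
      rw [Metric.mem_sphere, EuclideanSpace.dist_eq, Fin.sum_univ_one] at h1
      rw [Real.sqrt_sq dist_nonneg, Real.dist_eq] at h1
      rcases eq_or_eq_neg_of_abs_eq h1 with h2 | h2
      · left
        ext i
        fin_cases i
        simp
        linarith
      · right
        ext i
        fin_cases i
        simp
        linarith
  · rintro ⟨hd, q, hq⟩
    have hqr : (0 : ℝ) < q := by rw [← hq]; positivity
    have hq0 : 0 < q := by exact_mod_cast hqr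
    obtain ⟨X, hXi, hXn, hXr, hXs⟩ := exists_all d hd q hq0
    have hXn' : ∀ x ∈ X, ‖x‖ = ρ := by
      intro x hx
      have := hXn x hx
      rw [← hq] at this
      exact (pow_left_inj₀ (norm_nonneg x) hρ.le two_ne_zero).1 this
    refine ⟨(fun x => c + x) '' X, ?_, ?_, ?_, ?_⟩
    · rintro _ ⟨x, hx, rfl⟩
      rw [Metric.mem_sphere, dist_eq_norm]
      simp only [add_sub_cancel_left]
      exact hXn' x hx
    · exact hXi.image (fun x _ y _ h => add_left_cancel h)
    · rintro _ ⟨x, hx, rfl⟩ _ ⟨y, hy, rfl⟩ _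
      obtain ⟨r, hr⟩ := hXr x hx y hy
      exact ⟨r, by simpa using hr⟩
    · apply notInHyperplane_of_spread (hXi.nonempty.image _)
      intro a ha b
      obtain ⟨x, hx, hxb⟩ := hXs a ha (b - inner ℝ a c)
      refine ⟨c + x, ⟨x, hx, rfl⟩, ?_⟩
      rw [inner_add_right]
      intro h
      apply hxb
      linarith

end Pool.Agent.Results.MP_209919_co.InfiniteNonplanar
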